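import Pool.Agent.Lib_helper23.EMB.Prob
import Pool.Agent.Lib_helper37.MAP.Interface

/-!
Assembly: random cut families for finite metric spaces.
-/

namespace Pool.Agent.LibH23.EMB

open Finset

set_option linter.unusedSectionVars false

lemma exists_N (M : Type*) [Fintype M] [DecidableEq M] [MetricSpace M] :
    ∃ N : ℕ, 0 < N ∧ ∀ x y u v : M, x ≠ y → dist u v ≤ N * dist x y := by
  set E : ℝ := ∑ p : (M × M) × (M × M), dist p.1.1 p.1.2 / dist p.2.1 p.2.2 with hE
  refine ⟨⌈E⌉₊ + 1, Nat.succ_pos _, ?_⟩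
  intro x y u v hxy
  have hd : 0 < dist x y := dist_pos.mpr hxy
  have h1 : dist u v / dist x y ≤ E := by
    have := single_le_sum (f := fun p : (M × M) × (M × M) => dist p.1.1 p.1.2 / dist p.2.1 p.2.2)
      (fun p _ => div_nonneg dist_nonneg dist_nonneg) (mem_univ ((u, v), (x, y)))
    exact this
  have h2 : E ≤ (⌈E⌉₊ : ℝ) := Nat.le_ceil E
  rw [div_le_iff₀ hd] at h1
  push_cast
  nlinarith

lemma exists_eps (M : Type*) [Fintype M] [DecidableEq M] [MetricSpace M] :
    ∃ ε : ℝ, 0 < ε ∧ ∀ x y : M, x ≠ y → ε ≤ dist x y := by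
  set E : ℝ := 1 + ∑ p : M × M, (dist p.1 p.2)⁻¹ with hE
  have hs : 0 ≤ ∑ p : M × M, (dist p.1 p.2)⁻¹ := sum_nonneg fun p _ => inv_nonneg.mpr dist_nonneg
  have hE0 : 0 < E := by linarith
  refine ⟨E⁻¹, inv_pos.mpr hE0, ?_⟩
  intro x y hxy
  have hd : 0 < dist x y := dist_pos.mpr hxy
  have h1 : (dist x y)⁻¹ ≤ E := by
    have := single_le_sum (f := fun p : M × M => (dist p.1 p.2)⁻¹)
      (fun p _ => inv_nonneg.mpr dist_nonneg) (mem_univ (x, y))
    simp only at this
    linarith
  rw [inv_le_comm₀ hE0 hd]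
  exact h1

section

variable {M : Type*} [Fintype M] [DecidableEq M] [MetricSpace M] {n N k : ℕ}

/-- extend finitely many seeds to a sequence -/
def ext (s0 : (M ≃ Fin n) × Fin N) (ω : Fin k → (M ≃ Fin n) × Fin N) (l : ℕ) :
    (M ≃ Fin n) × Fin N :=
  if h : l < k then ω ⟨l, h⟩ else s0

open Classical in
/-- the contribution of level `l` -/
noncomputable def F (s : ℕ → (M ≃ Fin n) × Fin N) (l : ℕ) (x y : M) : ℝ :=
  if y ∈ C s l x ∧ ctr s l x ≠ ctr s l y then 2 * (V s l x + V s l y) else 0

lemma F_nonneg (s : ℕ → (M ≃ Fin n) × Fin N) (l : ℕ) (x y : M) : 0 ≤ F s l x y := by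
  unfold F
  split_ifs
  · have := V_nonneg s l x
    have := V_nonneg s l y
    positivity
  · exact le_rfl

lemma sum_L_le_sum_F (s : ℕ → (M ≃ Fin n) × Fin N) (hk : Fintype.card M < 2 ^ k) {x y : M}
    (hxy : x ≠ y) : ∑ j ∈ range k, L s j x y ≤ ∑ j ∈ range k, F s j x y := by
  obtain ⟨l, hl, hsep, hlow⟩ := exists_sep s hk hxy
  refine (sum_L_le s hl hlow).trans ?_
  have h1 : F s l x y = 2 * (V s l x + V s l y) := by
    have hsep' : y ∈ C s l x ∧ ctr s l x ≠ ctr s l y := hsep
    unfold F
    rw [if_pos hsep']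
  rw [← h1]
  exact single_le_sum (f := fun j => F s j x y) (fun j _ => F_nonneg s j x y) (mem_range.mpr hl)

lemma dist_le_sum_L (s : ℕ → (M ≃ Fin n) × Fin N) (hk : Fintype.card M < 2 ^ k) {x y : M}
    (hxy : x ≠ y) : dist x y ≤ ∑ j ∈ range k, L s j x y := by
  obtain ⟨l, hl, hsep, _⟩ := exists_sep s hk hxy
  refine (dist_le_of_sep s hsep).trans ?_
  exact single_le_sum (f := fun j => L s j x y) (fun j _ => L_nonneg s j x y) (mem_range.mpr hl)

/-- average of `F` at one level -/
lemma sum_F_le (s0 : (M ≃ Fin n) × Fin N) {x y : M} (hxy : x ≠ y)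
    (hN : ∀ u v : M, dist u v ≤ N * dist x y) (l : Fin k) :
    ∑ ω : Fin k → (M ≃ Fin n) × Fin N, F (ext s0 ω) l x y
      ≤ (Fintype.card (Fin k → (M ≃ Fin n) × Fin N) : ℝ) *
        (176 * (1 + Real.log (Fintype.card M)) * dist x y) := by
  classical
  have hd := dist_nonneg (x := x) (y := y)
  have hcardM : 1 ≤ Fintype.card M := Fintype.card_pos_iff.mpr ⟨x⟩
  have hlogM : 0 ≤ Real.log (Fintype.card M) :=
    Real.log_nonneg (by exact_mod_cast hcardM)
  set B : ℝ := 176 * (1 + Real.log (Fintype.card M)) * dist x y with hB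
  have hB0 : 0 ≤ B := by positivity
  set e := Equiv.funSplitAt l ((M ≃ Fin n) × Fin N) with he
  rw [← Equiv.sum_comp e.symm, Fintype.sum_prod_type_right]
  have hcard : (Fintype.card (Fin k → (M ≃ Fin n) × Fin N) : ℝ)
      = (Fintype.card ({j // j ≠ l} → (M ≃ Fin n) × Fin N) : ℝ)
        * (Fintype.card ((M ≃ Fin n) × Fin N) : ℝ) := by
    rw [Fintype.card_congr e, Fintype.card_prod]; push_cast; ring
  rw [hcard, mul_assoc, ← nsmul_eq_mul, ← card_univ (α := {j // j ≠ l} → (M ≃ Fin n) × Fin N),
    ← sum_const]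
  refine sum_le_sum fun rest _ => ?_
  -- the cluster does not depend on the seed of level `l`
  have hl : ∀ t, ext s0 (e.symm (t, rest)) l = t := by
    intro t
    unfold ext
    rw [dif_pos l.2]
    have : (⟨(l : ℕ), l.2⟩ : Fin k) = l := rfl
    rw [this, he]
    simp [Equiv.funSplitAt, Equiv.piSplitAt]
  have hj : ∀ t t', ∀ j < (l : ℕ),
      ext s0 (e.symm (t, rest)) j = ext s0 (e.symm (t', rest)) j := by
    intro t t' j hj
    unfold ext
    have hjk : j < k := hj.trans l.2
    rw [dif_pos hjk, dif_pos hjk, he]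
    have hne : (⟨j, hjk⟩ : Fin k) ≠ l := by
      intro h
      rw [← h] at hj
      exact lt_irrefl _ hj
    simp [Equiv.funSplitAt, Equiv.piSplitAt, hne]
  set S := C (ext s0 (e.symm (s0, rest))) l x with hS
  have hSt : ∀ t, C (ext s0 (e.symm (t, rest))) l x = S := fun t => C_congr (hj t s0) x
  have hx : x ∈ S := self_mem_C _ _ _
  by_cases hy : y ∈ S
  · have hS2 : 2 ≤ S.card := by
      have : ({x, y} : Finset M) ⊆ S := by
        intro w hw
        rw [mem_insert, mem_singleton] at hw
        rcases hw with rfl | rfl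
        · exact hx
        · exact hy
      have h2 := card_le_card this
      rwa [card_pair hxy] at h2
    have hF : ∀ t, F (ext s0 (e.symm (t, rest))) l x y
        = 4 * (if cen t S x ≠ cen t S y then rad S (cen t S x) + rad S (cen t S y) else 0) := by
      intro t
      have hCx := hSt t
      have hyt : y ∈ C (ext s0 (e.symm (t, rest))) l x := by rw [hCx]; exact hy
      have hCy : C (ext s0 (e.symm (t, rest))) l y = S := by
        rw [C_eq_of_mem _ hyt, hCx]
      have hcx : ctr (ext s0 (e.symm (t, rest))) l x = cen t S x := by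
        unfold ctr; rw [hCx, hl t]
      have hcy : ctr (ext s0 (e.symm (t, rest))) l y = cen t S y := by
        unfold ctr; rw [hCy, hl t]
      unfold F V
      rw [hcx, hcy, hCx, hCy]
      by_cases hne : cen t S x ≠ cen t S y
      · rw [if_pos ⟨hy, hne⟩, if_pos hne]; ring
      · rw [if_neg (fun h => hne h.2), if_neg hne]; ring
    simp_rw [hF]
    rw [← mul_sum]
    have h1 := sum_sep (n := n) (N := N) hS2 hx hy hN
    have h2 : (harmonic S.card : ℝ) ≤ 1 + Real.log (Fintype.card M) := by
      refine (harmonic_le_one_add_log S.card).trans ?_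
      have h3 : Real.log S.card ≤ Real.log (Fintype.card M) := by
        apply Real.log_le_log
        · have : 0 < S.card := by omega
          exact_mod_cast this
        · exact_mod_cast card_le_univ S
      linarith
    calc 4 * ∑ t : (M ≃ Fin n) × Fin N,
          (if cen t S x ≠ cen t S y then rad S (cen t S x) + rad S (cen t S y) else 0)
        ≤ 4 * ((Fintype.card ((M ≃ Fin n) × Fin N) : ℝ)
          * (44 * (harmonic S.card : ℝ) * dist x y)) := by linarith
      _ = (Fintype.card ((M ≃ Fin n) × Fin N) : ℝ) * (176 * dist x y) * (harmonic S.card : ℝ) := by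
          ring
      _ ≤ (Fintype.card ((M ≃ Fin n) × Fin N) : ℝ) * (176 * dist x y)
          * (1 + Real.log (Fintype.card M)) := mul_le_mul_of_nonneg_left h2 (by positivity)
      _ = _ := by rw [hB]; ring
  · have hF : ∀ t, F (ext s0 (e.symm (t, rest))) l x y = 0 := by
      intro t
      unfold F
      rw [if_neg]
      rintro ⟨h, _⟩
      rw [hSt t] at h
      exact hy h
    simp_rw [hF]
    rw [sum_const_zero]
    positivity

end

open Pool.Agent.Lib37.MAP

universe u

/-- the cut distance of our family -/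
lemma cutDist_bounds {M : Type u} [Fintype M] [DecidableEq M] [MetricSpace M] {n N k : ℕ}
    (s : ℕ → (M ≃ Fin n) × Fin N) (ε : ℝ) (hε : 0 ≤ ε)
    (T : (Fin k × M) ⊕ M → Finset M) (w : (Fin k × M) ⊕ M → ℝ)
    (hT1 : ∀ l z, T (Sum.inl (l, z)) = univ.filter (fun x => ctr s l x = z))
    (hT2 : ∀ j, T (Sum.inr j) = {j})
    (hw1 : ∀ l z, w (Sum.inl (l, z)) = 2 * rad (C s l z) z)
    (hw2 : ∀ j, w (Sum.inr j) = ε) (x y : M) :
    ∑ j ∈ range k, L s j x y ≤ cutDist T w x y ∧
      cutDist T w x y ≤ ∑ j ∈ range k, L s j x y + 2 * ε := by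
  have h1 : cutDist T w x y = ∑ j ∈ range k, L s j x y
      + ∑ j, ε * |(if x = j then (1:ℝ) else 0) - (if y = j then (1:ℝ) else 0)| := by
    unfold cutDist
    rw [Fintype.sum_sum_type, Fintype.sum_prod_type]
    congr 1
    · rw [← Fin.sum_univ_eq_sum_range (fun l => L s l x y)]
      refine sum_congr rfl fun l _ => ?_
      unfold L
      refine sum_congr rfl fun z _ => ?_
      rw [hT1, hw1]
      simp only [mem_filter, mem_univ, true_and]
    · refine sum_congr rfl fun j _ => ?_
      rw [hT2, hw2]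
      simp only [mem_singleton]
  rw [h1]
  constructor
  · have : 0 ≤ ∑ j, ε * |(if x = j then (1:ℝ) else 0) - (if y = j then (1:ℝ) else 0)| :=
      sum_nonneg fun j _ => mul_nonneg hε (abs_nonneg _)
    linarith
  · have h2 : ∑ j, ε * |(if x = j then (1:ℝ) else 0) - (if y = j then (1:ℝ) else 0)|
        ≤ ∑ j, ((if x = j then ε else 0) + (if y = j then ε else 0)) := by
      refine sum_le_sum fun j _ => ?_
      (by_cases hx : x = j <;> by_cases hy : y = j <;> simp [hx, hy]) <;> linarith
    rw [sum_add_distrib, sum_ite_eq, sum_ite_eq] at h2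
    simp only [mem_univ, if_true] at h2
    linarith

theorem embStatement : EmbStatement.{u} := by
  classical
  refine ⟨1600, ?_⟩
  intro M _ _ _ hn
  obtain ⟨N, hN0, hN⟩ := exists_N M
  obtain ⟨ε, hε0, hε⟩ := exists_eps M
  set n := Fintype.card M with hndef
  set k := Nat.log 2 n + 1 with hk
  have hkn : Fintype.card M < 2 ^ k := Nat.lt_pow_succ_log_self one_lt_two n
  have : Nonempty (Fin N) := ⟨⟨0, hN0⟩⟩
  let s0 : (M ≃ Fin n) × Fin N := (Fintype.equivFin M, ⟨0, hN0⟩)
  have hlog2 : 0.6931471803 < Real.log 2 := Real.log_two_gt_d9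
  have hlogn : Real.log 2 ≤ Real.log n := Real.log_le_log (by norm_num) (by exact_mod_cast hn)
  have hklog : ((Nat.log 2 n : ℕ) : ℝ) * Real.log 2 ≤ Real.log n := by
    have h1 := Nat.pow_log_le_self 2 (show n ≠ 0 by omega)
    have h2 : ((2:ℝ) ^ (Nat.log 2 n)) ≤ n := by exact_mod_cast h1
    have h3 := Real.log_le_log (by positivity) h2
    rwa [Real.log_pow] at h3
  have hk3 : (k : ℝ) ≤ 3 * Real.log n := by
    have h1 : ((Nat.log 2 n : ℕ) : ℝ) * 0.6931471803 ≤ Real.log n :=
      (mul_le_mul_of_nonneg_left hlog2.le (Nat.cast_nonneg _)).trans hklog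
    rw [hk]
    push_cast
    nlinarith
  refine ⟨Fin k → (M ≃ Fin n) × Fin N, (Fin k × M) ⊕ M, inferInstance, ⟨fun _ => s0⟩,
    inferInstance,
    fun ω u => Sum.elim (fun p => univ.filter (fun x => ctr (ext s0 ω) p.1 x = p.2))
      (fun j => {j}) u,
    fun ω u => Sum.elim (fun p => 2 * rad (C (ext s0 ω) p.1 p.2) p.2) (fun _ => ε) u,
    k + 1, ?_, ?_, ?_, ?_, ?_, ?_, ?_⟩
  · intro ω u
    rcases u with ⟨l, z⟩ | j
    · exact mul_nonneg zero_le_two (rad_nonneg _ _)
    · exact hε0.le
  · intro ω j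
    exact ⟨Sum.inr j, rfl, hε0⟩
  · intro ω i
    have hsub : (univ.filter fun u : (Fin k × M) ⊕ M => i ∈ Sum.elim
        (fun p : Fin k × M => univ.filter (fun x => ctr (ext s0 ω) p.1 x = p.2))
        (fun j => {j}) u) ⊆
        (univ.image (fun l : Fin k => (Sum.inl (l, ctr (ext s0 ω) l i) : (Fin k × M) ⊕ M)))
          ∪ {Sum.inr i} := by
      intro u hu
      rw [mem_filter] at hu
      rw [mem_union, mem_image, mem_singleton]
      rcases u with ⟨l, z⟩ | j
      · left
        have h := hu.2
        simp only [Sum.elim_inl, mem_filter, mem_univ, true_and] at h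
        exact ⟨l, mem_univ _, by rw [h]⟩
      · right
        have h := hu.2
        simp only [Sum.elim_inr, mem_singleton] at h
        rw [h]
    refine (card_le_card hsub).trans ((card_union_le _ _).trans ?_)
    rw [card_singleton]
    refine Nat.add_le_add_right (card_image_le.trans ?_) 1
    rw [card_univ, Fintype.card_fin]
  · push_cast
    nlinarith
  · rw [Fintype.card_sum, Fintype.card_prod, Fintype.card_fin]
    have h1 : Nat.log 2 n < n := Nat.log_lt_self 2 (by omega)
    have h2 : k ≤ n := by omega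
    have h3 : (k : ℝ) ≤ n := by exact_mod_cast h2
    have h4 : (2:ℝ) ≤ n := by exact_mod_cast hn
    rw [← hndef]
    push_cast
    nlinarith
  · intro ω i j
    by_cases hij : i = j
    · subst hij
      rw [dist_self]
      unfold cutDist
      simp
    · have h := (cutDist_bounds (ext s0 ω) ε hε0.le
        (fun u => Sum.elim (fun p : Fin k × M => univ.filter (fun x => ctr (ext s0 ω) p.1 x = p.2))
          (fun j => {j}) u)
        (fun u => Sum.elim (fun p : Fin k × M => 2 * rad (C (ext s0 ω) p.1 p.2) p.2) (fun _ => ε) u)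
        (fun _ _ => rfl) (fun _ => rfl) (fun _ _ => rfl) (fun _ => rfl) i j).1
      exact (dist_le_sum_L (ext s0 ω) hkn hij).trans h
  · intro i j
    by_cases hij : i = j
    · subst hij
      rw [dist_self, mul_zero, mul_zero]
      apply le_of_eq
      apply sum_eq_zero
      intro ω _
      unfold cutDist
      simp
    · have hd : ε ≤ dist i j := hε i j hij
      have hpt : ∀ ω : Fin k → (M ≃ Fin n) × Fin N, cutDist
          (fun u => Sum.elim (fun p : Fin k × M => univ.filter (fun x => ctr (ext s0 ω) p.1 x = p.2))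
            (fun j => {j}) u)
          (fun u => Sum.elim (fun p : Fin k × M => 2 * rad (C (ext s0 ω) p.1 p.2) p.2)
            (fun _ => ε) u) i j
          ≤ ∑ l ∈ range k, F (ext s0 ω) l i j + 2 * ε := by
        intro ω
        have h := (cutDist_bounds (ext s0 ω) ε hε0.le
          (fun u => Sum.elim (fun p : Fin k × M =>
            univ.filter (fun x => ctr (ext s0 ω) p.1 x = p.2)) (fun j => {j}) u)
          (fun u => Sum.elim (fun p : Fin k × M => 2 * rad (C (ext s0 ω) p.1 p.2) p.2)
            (fun _ => ε) u)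
          (fun _ _ => rfl) (fun _ => rfl) (fun _ _ => rfl) (fun _ => rfl) i j).2
        have h2 := sum_L_le_sum_F (ext s0 ω) hkn hij
        linarith
      have hNij : ∀ u v : M, dist u v ≤ N * dist i j := fun u v => hN i j u v hij
      calc _ ≤ ∑ ω : Fin k → (M ≃ Fin n) × Fin N,
            (∑ l ∈ range k, F (ext s0 ω) l i j + 2 * ε) := sum_le_sum fun ω _ => hpt ω
        _ = ∑ l ∈ range k, (∑ ω : Fin k → (M ≃ Fin n) × Fin N, F (ext s0 ω) l i j)
            + (Fintype.card (Fin k → (M ≃ Fin n) × Fin N) : ℝ) * (2 * ε) := by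
          rw [sum_add_distrib, sum_comm, sum_const, nsmul_eq_mul, card_univ]
        _ ≤ ∑ l ∈ range k, ((Fintype.card (Fin k → (M ≃ Fin n) × Fin N) : ℝ) *
            (176 * (1 + Real.log n) * dist i j))
            + (Fintype.card (Fin k → (M ≃ Fin n) × Fin N) : ℝ) * (2 * dist i j) := by
          apply add_le_add
          · refine sum_le_sum fun l hl => ?_
            exact sum_F_le s0 hij hNij ⟨l, mem_range.mp hl⟩
          · apply mul_le_mul_of_nonneg_left _ (Nat.cast_nonneg _)
            linarith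
        _ = (Fintype.card (Fin k → (M ≃ Fin n) × Fin N) : ℝ) *
            ((176 * k * (1 + Real.log n) + 2) * dist i j) := by
          rw [sum_const, card_range, nsmul_eq_mul]; ring
        _ ≤ _ := by
          apply mul_le_mul_of_nonneg_left _ (Nat.cast_nonneg _)
          apply mul_le_mul_of_nonneg_right _ dist_nonneg
          have h1 : 1 + Real.log n ≤ 3 * Real.log n := by linarith
          have h2 : (k:ℝ) * (1 + Real.log n) ≤ (3 * Real.log n) * (3 * Real.log n) :=
            mul_le_mul hk3 h1 (by linarith) (by linarith)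
          nlinarith

end Pool.Agent.LibH23.EMB
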