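import Pool.Agent.Lib_helper23.EMB.Rad

/-!
The hierarchical partition given by a sequence of seeds.
-/

namespace Pool.Agent.LibH23.EMB

open Finset

set_option linter.unusedSectionVars false

variable {M : Type*} [Fintype M] [DecidableEq M] [MetricSpace M] {n N : ℕ}

/-- the scale `α` of a seed -/
noncomputable def al (q : Fin N) : ℝ := 1 / 8 + (q : ℝ) / (8 * N)

lemma al_ge (q : Fin N) : 1 / 8 ≤ al q := by
  unfold al
  have : (0:ℝ) ≤ (q : ℝ) / (8 * N) := by positivity
  linarith

lemma al_lt (q : Fin N) : al q < 1 / 4 := by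
  unfold al
  have hN : (0:ℝ) < N := by
    have : 0 < N := lt_of_le_of_lt (Nat.zero_le _) q.2
    exact_mod_cast this
  have hq : (q : ℝ) < N := by exact_mod_cast q.2
  have : (q : ℝ) / (8 * N) < 1 / 8 := by
    rw [div_lt_iff₀ (by positivity)]
    linarith
  linarith

/-- the set of possible centres of `x` in `S` -/
noncomputable def cset (q : Fin N) (S : Finset M) (x : M) : Finset M :=
  S.filter (fun z => dist x z ≤ al q * rad S z)

/-- the centre of `x` in `S` -/
noncomputable def cen (s : (M ≃ Fin n) × Fin N) (S : Finset M) (x : M) : M :=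
  first s.1 (cset s.2 S x) x

lemma self_mem_cset (q : Fin N) {S : Finset M} {x : M} (hx : x ∈ S) : x ∈ cset q S x := by
  unfold cset
  rw [mem_filter, dist_self]
  refine ⟨hx, mul_nonneg ?_ (rad_nonneg _ _)⟩
  have := al_ge q
  linarith

lemma cen_spec (s : (M ≃ Fin n) × Fin N) {S : Finset M} {x : M} (hx : x ∈ S) :
    cen s S x ∈ S ∧ dist x (cen s S x) ≤ al s.2 * rad S (cen s S x) := by
  have h := first_mem s.1 ⟨x, self_mem_cset s.2 hx⟩ x
  unfold cset at h
  rw [mem_filter] at h
  exact h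

/-- the cluster of `x` at level `l` -/
noncomputable def C (s : ℕ → (M ≃ Fin n) × Fin N) : ℕ → M → Finset M
  | 0, _ => univ
  | l + 1, x => (C s l x).filter (fun y => cen (s l) (C s l x) y = cen (s l) (C s l x) x)

variable (s : ℕ → (M ≃ Fin n) × Fin N)

lemma C_succ (l : ℕ) (x : M) : C s (l + 1) x
    = (C s l x).filter (fun y => cen (s l) (C s l x) y = cen (s l) (C s l x) x) := rfl

lemma self_mem_C (l : ℕ) (x : M) : x ∈ C s l x := by
  induction l with
  | zero => exact mem_univ _
  | succ l ih => rw [C_succ, mem_filter]; exact ⟨ih, rfl⟩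

lemma C_succ_subset (l : ℕ) (x : M) : C s (l + 1) x ⊆ C s l x := by
  rw [C_succ]; exact filter_subset _ _

lemma C_eq_of_mem {l : ℕ} {x y : M} (h : y ∈ C s l x) : C s l y = C s l x := by
  induction l with
  | zero => rfl
  | succ l ih =>
    rw [C_succ, mem_filter] at h
    have h1 := ih h.1
    rw [C_succ, C_succ, h1, h.2]

/-- the centre of `x` at level `l` -/
noncomputable def ctr (l : ℕ) (x : M) : M := cen (s l) (C s l x) x

lemma mem_C_succ {l : ℕ} {x y : M} :
    y ∈ C s (l + 1) x ↔ y ∈ C s l x ∧ ctr s l y = ctr s l x := by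
  rw [C_succ, mem_filter]
  constructor
  · rintro ⟨h1, h2⟩
    refine ⟨h1, ?_⟩
    unfold ctr
    rw [C_eq_of_mem s h1, h2]
  · rintro ⟨h1, h2⟩
    refine ⟨h1, ?_⟩
    unfold ctr at h2
    rwa [C_eq_of_mem s h1] at h2

lemma ctr_mem (l : ℕ) (x : M) : ctr s l x ∈ C s l x := (cen_spec (s l) (self_mem_C s l x)).1

lemma dist_ctr (l : ℕ) (x : M) :
    dist x (ctr s l x) ≤ al (s l).2 * rad (C s l x) (ctr s l x) :=
  (cen_spec (s l) (self_mem_C s l x)).2

lemma C_ctr (l : ℕ) (x : M) : C s l (ctr s l x) = C s l x := C_eq_of_mem s (ctr_mem s l x)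

lemma C_nonempty (l : ℕ) (x : M) : (C s l x).Nonempty := ⟨x, self_mem_C s l x⟩

lemma dist_ctr_of_mem {l : ℕ} {x y : M} (h : y ∈ C s (l + 1) x) :
    dist y (ctr s l x) ≤ al (s l).2 * rad (C s l x) (ctr s l x) := by
  rw [mem_C_succ] at h
  have h1 := dist_ctr s l y
  rwa [h.2, C_eq_of_mem s h.1] at h1

lemma card_C_succ {l : ℕ} {x : M} (h : 2 ≤ (C s l x).card) :
    2 * (C s (l + 1) x).card ≤ (C s l x).card := by
  have hp := rad_pos h (ctr s l x)
  have hlt : al (s l).2 * rad (C s l x) (ctr s l x) < rad (C s l x) (ctr s l x) := by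
    have := al_lt (s l).2
    nlinarith
  refine le_trans (Nat.mul_le_mul_left 2 (card_le_card ?_)) (half_of_lt_rad hlt)
  intro y hy
  rw [mem_filter, dist_comm]
  exact ⟨C_succ_subset s l x hy, dist_ctr_of_mem s hy⟩

lemma card_C (l : ℕ) (x : M) :
    (C s l x).card = 1 ∨ 2 ^ l * (C s l x).card ≤ Fintype.card M := by
  induction l with
  | zero => right; simp [C]
  | succ l ih =>
    have hpos : 0 < (C s (l + 1) x).card := (C_nonempty s (l + 1) x).card_pos
    have hle := card_le_card (C_succ_subset s l x)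
    by_cases h2 : 2 ≤ (C s l x).card
    · right
      have h3 := card_C_succ s h2
      rcases ih with h | h
      · omega
      · calc 2 ^ (l + 1) * (C s (l + 1) x).card = 2 ^ l * (2 * (C s (l + 1) x).card) := by ring
          _ ≤ 2 ^ l * (C s l x).card := Nat.mul_le_mul_left _ h3
          _ ≤ _ := h
    · left; omega

lemma C_final {k : ℕ} (hk : Fintype.card M < 2 ^ k) (x : M) : C s k x = {x} := by
  have h1 : (C s k x).card = 1 := by
    rcases card_C s k x with h | h
    · exact h
    · have hpos : 0 < (C s k x).card := (C_nonempty s k x).card_pos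
      have : 2 ^ k * 1 ≤ 2 ^ k * (C s k x).card := Nat.mul_le_mul_left _ hpos
      omega
  obtain ⟨a, ha⟩ := card_eq_one.mp h1
  have := self_mem_C s k x
  rw [ha, mem_singleton] at this
  rw [ha, this]

/-- the weight of the level-`l` cluster of `x` -/
noncomputable def V (l : ℕ) (x : M) : ℝ := 2 * rad (C s l x) (ctr s l x)

lemma V_nonneg (l : ℕ) (x : M) : 0 ≤ V s l x := mul_nonneg zero_le_two (rad_nonneg _ _)

lemma V_succ_le (l : ℕ) (x : M) : V s (l + 1) x ≤ V s l x / 2 := by
  unfold V
  have h : rad (C s (l + 1) x) (ctr s (l + 1) x) ≤ rad (C s l x) (ctr s l x) / 2 := by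
    apply rad_le_of_forall (C_nonempty s (l + 1) x)
    intro y hy
    have h1 := dist_ctr_of_mem s hy
    have h2 := dist_ctr_of_mem s (ctr_mem s (l + 1) x)
    have h3 := dist_triangle (ctr s (l + 1) x) (ctr s l x) y
    rw [dist_comm (ctr s l x) y] at h3
    have h4 := al_lt (s l).2
    have h5 := rad_nonneg (C s l x) (ctr s l x)
    nlinarith
  linarith

lemma sum_V_le (l m : ℕ) (x : M) : ∑ j ∈ range m, V s (l + j) x ≤ 2 * V s l x - 2 * V s (l + m) x := by
  induction m with
  | zero => simp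
  | succ m ih =>
    rw [sum_range_succ]
    have h := V_succ_le s (l + m) x
    have e : l + (m + 1) = l + m + 1 := rfl
    rw [e]
    linarith

/-- the cut at level `l` -/
noncomputable def L (l : ℕ) (x y : M) : ℝ :=
  ∑ z, 2 * rad (C s l z) z *
    |(if ctr s l x = z then (1:ℝ) else 0) - (if ctr s l y = z then (1:ℝ) else 0)|

lemma L_nonneg (l : ℕ) (x y : M) : 0 ≤ L s l x y :=
  sum_nonneg fun _ _ => mul_nonneg (mul_nonneg zero_le_two (rad_nonneg _ _)) (abs_nonneg _)

lemma L_eq_zero {l : ℕ} {x y : M} (h : ctr s l x = ctr s l y) : L s l x y = 0 := by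
  unfold L
  rw [h]
  simp

lemma L_eq {l : ℕ} {x y : M} (h : ctr s l x ≠ ctr s l y) : L s l x y = V s l x + V s l y := by
  have e : ∀ z, 2 * rad (C s l z) z *
      |(if ctr s l x = z then (1:ℝ) else 0) - (if ctr s l y = z then (1:ℝ) else 0)|
      = (if ctr s l x = z then 2 * rad (C s l z) z else 0)
        + (if ctr s l y = z then 2 * rad (C s l z) z else 0) := by
    intro z
    by_cases h1 : ctr s l x = z
    · have h2 : ctr s l y ≠ z := fun h2 => h (h1.trans h2.symm)
      simp [h1, h2]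
    · by_cases h2 : ctr s l y = z
      · simp [h1, h2]
      · simp [h1, h2]
  unfold L
  simp_rw [e]
  rw [sum_add_distrib, sum_ite_eq, sum_ite_eq]
  simp only [mem_univ, if_true]
  unfold V
  rw [C_ctr, C_ctr]

lemma L_le (l : ℕ) (x y : M) : L s l x y ≤ V s l x + V s l y := by
  by_cases h : ctr s l x = ctr s l y
  · rw [L_eq_zero s h]
    exact add_nonneg (V_nonneg s l x) (V_nonneg s l y)
  · exact (L_eq s h).le

/-- the event that `x` and `y` are separated at level `l` -/
def Sep (l : ℕ) (x y : M) : Prop := y ∈ C s l x ∧ ctr s l x ≠ ctr s l y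

lemma exists_sep {k : ℕ} (hk : Fintype.card M < 2 ^ k) {x y : M} (hxy : x ≠ y) :
    ∃ l < k, Sep s l x y ∧ ∀ j < l, ctr s j x = ctr s j y := by
  classical
  have hex : ∃ l, y ∉ C s l x := ⟨k, by rw [C_final s hk x, mem_singleton]; exact hxy.symm⟩
  have h1 := Nat.find_spec hex
  have h0 : Nat.find hex ≠ 0 := by
    intro h
    rw [h] at h1
    exact h1 (mem_univ _)
  obtain ⟨l, hl⟩ := Nat.exists_eq_succ_of_ne_zero h0
  have hle : Nat.find hex ≤ k :=
    Nat.find_min' hex (by rw [C_final s hk x, mem_singleton]; exact hxy.symm)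
  have hmem : ∀ j ≤ l, y ∈ C s j x := by
    intro j hj
    by_contra hc
    have := Nat.find_min' hex hc
    omega
  refine ⟨l, by omega, ⟨hmem l le_rfl, ?_⟩, ?_⟩
  · intro h
    rw [hl] at h1
    exact h1 ((mem_C_succ s).mpr ⟨hmem l le_rfl, h.symm⟩)
  · intro j hj
    have := hmem (j + 1) (by omega)
    rw [mem_C_succ] at this
    exact this.2.symm

lemma dist_le_of_sep {l : ℕ} {x y : M} (h : Sep s l x y) : dist x y ≤ L s l x y := by
  rw [L_eq s h.2]
  unfold V
  have hC : C s l y = C s l x := C_eq_of_mem s h.1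
  rw [hC]
  have h1 := dist_le_rad_add (C_nonempty s l x) x y
  have h2 := rad_le_add (C_nonempty s l x) x (ctr s l x)
  have h3 := rad_le_add (C_nonempty s l x) y (ctr s l y)
  have h4 := dist_ctr s l x
  have h5 := dist_ctr s l y
  rw [hC] at h5
  have h6 := al_lt (s l).2
  have h7 := rad_nonneg (C s l x) (ctr s l x)
  have h8 := rad_nonneg (C s l x) (ctr s l y)
  nlinarith

lemma sum_L_le {k l : ℕ} (hl : l < k) {x y : M} (hlow : ∀ j < l, ctr s j x = ctr s j y) :
    ∑ j ∈ range k, L s j x y ≤ 2 * (V s l x + V s l y) := by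
  obtain ⟨m, rfl⟩ := Nat.exists_eq_add_of_le hl.le
  rw [sum_range_add]
  have h1 : ∑ j ∈ range l, L s j x y = 0 :=
    sum_eq_zero fun j hj => L_eq_zero s (hlow j (mem_range.mp hj))
  rw [h1, zero_add]
  calc ∑ j ∈ range m, L s (l + j) x y ≤ ∑ j ∈ range m, (V s (l + j) x + V s (l + j) y) :=
        sum_le_sum fun j _ => L_le s (l + j) x y
    _ = ∑ j ∈ range m, V s (l + j) x + ∑ j ∈ range m, V s (l + j) y := sum_add_distrib
    _ ≤ _ := by
        have h2 := sum_V_le s l m x
        have h3 := sum_V_le s l m y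
        have h4 := V_nonneg s (l + m) x
        have h5 := V_nonneg s (l + m) y
        linarith

/-- clusters only depend on the earlier seeds -/
lemma C_congr {s s' : ℕ → (M ≃ Fin n) × Fin N} {l : ℕ} (h : ∀ j < l, s j = s' j) (x : M) :
    C s l x = C s' l x := by
  induction l with
  | zero => rfl
  | succ l ih =>
    rw [C_succ, C_succ, ih (fun j hj => h j (by omega)), h l (by omega)]

end Pool.Agent.LibH23.EMB
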