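import Pool.Agent.Lib_helper23.EMB.Part

/-!
The probability that two points are separated.
-/

namespace Pool.Agent.LibH23.EMB

open Finset

set_option linter.unusedSectionVars false

lemma sum_inv_rank {M : Type*} [DecidableEq M] (a : M → ℝ) (S : Finset M) :
    ∑ z ∈ S, (((S.filter (fun w => a w ≤ a z)).card : ℝ))⁻¹ ≤ (harmonic S.card : ℝ) := by
  induction S using Finset.induction_on_max_value a with
  | empty => simp
  | insert z s hz hmax ih =>
    rw [sum_insert hz, card_insert_of_notMem hz, harmonic_succ]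
    have h1 : ((insert z s).filter (fun w => a w ≤ a z)) = insert z s := by
      apply filter_true_of_mem
      intro w hw
      rw [mem_insert] at hw
      rcases hw with rfl | hw
      · exact le_rfl
      · exact hmax w hw
    rw [h1, card_insert_of_notMem hz]
    have h2 : ∑ w ∈ s, ((((insert z s).filter (fun v => a v ≤ a w)).card : ℝ))⁻¹
        ≤ ∑ w ∈ s, (((s.filter (fun v => a v ≤ a w)).card : ℝ))⁻¹ := by
      refine sum_le_sum fun w hw => ?_
      have hpos : 0 < (s.filter (fun v => a v ≤ a w)).card :=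
        card_pos.mpr ⟨w, mem_filter.mpr ⟨hw, le_rfl⟩⟩
      apply inv_anti₀ (by exact_mod_cast hpos)
      exact_mod_cast card_le_card (filter_subset_filter _ (subset_insert z s))
    push_cast
    have h3 : ((s.card : ℝ) + 1)⁻¹ + ∑ w ∈ s, ((((insert z s).filter (fun v => a v ≤ a w)).card : ℝ))⁻¹
        ≤ ((s.card : ℝ) + 1)⁻¹ + (harmonic s.card : ℝ) := by
      have := h2.trans ih
      linarith
    linarith

lemma count_al {N : ℕ} {a b : ℝ} (hab : a ≤ b) :
    ((univ.filter (fun q : Fin N => a ≤ al q ∧ al q < b)).card : ℝ) ≤ 8 * N * (b - a) + 1 := by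
  rcases Nat.eq_zero_or_pos N with h0 | hN
  · subst h0
    simp
  have hN' : (0:ℝ) < N := by exact_mod_cast hN
  set A : ℝ := 8 * N * (a - 1 / 8) with hA
  set B : ℝ := 8 * N * (b - 1 / 8) with hB
  have hAB : A ≤ B := by
    rw [hA, hB]
    have : 0 ≤ 8 * (N:ℝ) * (b - a) := by
      have := sub_nonneg.mpr hab
      positivity
    linarith
  have h1 : (univ.filter (fun q : Fin N => a ≤ al q ∧ al q < b)).card
      ≤ (Finset.Ico ⌈A⌉ ⌈B⌉).card := by
    refine card_le_card_of_injOn (fun q : Fin N => ((q : ℕ) : ℤ)) ?_ ?_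
    · intro q hq
      simp only [coe_filter, mem_univ, true_and, Set.mem_ofPred_eq] at hq
      have hal : al q = 1 / 8 + (q : ℝ) / (8 * N) := rfl
      have hq1 : A ≤ ((q : ℕ) : ℝ) := by
        have h := hq.1
        rw [hal] at h
        have h2 : a - 1 / 8 ≤ (q : ℝ) / (8 * N) := by linarith
        rw [le_div_iff₀ (by positivity)] at h2
        rw [hA]; linarith
      have hq2 : ((q : ℕ) : ℝ) < B := by
        have h := hq.2
        rw [hal] at h
        have h2 : (q : ℝ) / (8 * N) < b - 1 / 8 := by linarith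
        rw [div_lt_iff₀ (by positivity)] at h2
        rw [hB]; linarith
      simp only [coe_Ico, Set.mem_Ico]
      constructor
      · rw [Int.ceil_le]; exact_mod_cast hq1
      · rw [Int.lt_ceil]; exact_mod_cast hq2
    · intro q _ q' _ h
      have h' : ((q : ℕ) : ℤ) = ((q' : ℕ) : ℤ) := h
      exact Fin.ext (by exact_mod_cast h')
  have h2 : ((Finset.Ico ⌈A⌉ ⌈B⌉).card : ℝ) ≤ B - A + 1 := by
    rw [Int.card_Ico]
    have h3 : ⌈A⌉ ≤ ⌈B⌉ := Int.ceil_le_ceil hAB
    have h4 : (((⌈B⌉ - ⌈A⌉).toNat : ℤ) : ℝ) = ((⌈B⌉ - ⌈A⌉ : ℤ) : ℝ) := by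
      rw [Int.toNat_of_nonneg (by linarith)]
    have h5 : (((⌈B⌉ - ⌈A⌉).toNat : ℕ) : ℝ) = ((⌈B⌉ - ⌈A⌉ : ℤ) : ℝ) := by
      rw [← h4]; norm_cast
    rw [h5]
    push_cast
    have h6 := Int.ceil_lt_add_one B
    have h7 := Int.le_ceil A
    linarith
  have h3 : (((univ.filter (fun q : Fin N => a ≤ al q ∧ al q < b)).card : ℕ) : ℝ)
      ≤ ((Finset.Ico ⌈A⌉ ⌈B⌉).card : ℝ) := by exact_mod_cast h1
  have h4 : B - A + 1 = 8 * N * (b - a) + 1 := by rw [hA, hB]; ring
  linarith

variable {M : Type*} [Fintype M] [DecidableEq M] [MetricSpace M] {n N : ℕ}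

/-- normalised smaller distance -/
noncomputable def aa (S : Finset M) (x y z : M) : ℝ := min (dist x z) (dist y z) / rad S z
/-- normalised larger distance -/
noncomputable def bb (S : Finset M) (x y z : M) : ℝ := max (dist x z) (dist y z) / rad S z

lemma sep_imp {S : Finset M} (hS : 2 ≤ S.card) {x y : M} (hx : x ∈ S)
    (π : M ≃ Fin n) (q : Fin N) (h : cen (π, q) S x ≠ cen (π, q) S y) :
    first π (S.filter (fun z => aa S x y z ≤ al q)) x
      ∈ S.filter (fun z => aa S x y z ≤ al q ∧ al q < bb S x y z) := by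
  have hr : ∀ z, 0 < rad S z := fun z => rad_pos hS z
  have halq := al_ge q
  set Z := S.filter (fun z => aa S x y z ≤ al q) with hZ
  have hxZ : x ∈ Z := by
    rw [hZ, mem_filter]
    refine ⟨hx, ?_⟩
    unfold aa
    rw [dist_self, min_eq_left dist_nonneg, zero_div]
    linarith
  have hzZ := first_mem π ⟨x, hxZ⟩ x
  set z := first π Z x with hz
  have hzZ' := hzZ
  rw [hZ, mem_filter] at hzZ'
  rw [mem_filter]
  refine ⟨hzZ'.1, hzZ'.2, ?_⟩
  by_contra hc
  rw [not_lt] at hc
  unfold bb at hc
  rw [div_le_iff₀ (hr z), max_le_iff] at hc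
  have hsubx : ∀ w ∈ cset q S x, w ∈ Z := by
    intro w hw
    unfold cset at hw
    rw [mem_filter] at hw
    rw [hZ, mem_filter]
    refine ⟨hw.1, ?_⟩
    unfold aa
    rw [div_le_iff₀ (hr w)]
    exact (min_le_left _ _).trans hw.2
  have hsuby : ∀ w ∈ cset q S y, w ∈ Z := by
    intro w hw
    unfold cset at hw
    rw [mem_filter] at hw
    rw [hZ, mem_filter]
    refine ⟨hw.1, ?_⟩
    unfold aa
    rw [div_le_iff₀ (hr w)]
    exact (min_le_right _ _).trans hw.2
  have h1 : cen (π, q) S x = z := by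
    unfold cen
    apply first_eq
    · unfold cset; rw [mem_filter]; exact ⟨hzZ'.1, hc.1⟩
    · intro w hw
      exact first_le π (hsubx w hw) x
  have h2 : cen (π, q) S y = z := by
    unfold cen
    apply first_eq
    · unfold cset; rw [mem_filter]; exact ⟨hzZ'.1, hc.2⟩
    · intro w hw
      exact first_le π (hsuby w hw) x
  exact h (h1.trans h2.symm)

/-- the rank of `z` -/
noncomputable def rk (S : Finset M) (x y z : M) : ℝ :=
  ((S.filter (fun w => aa S x y w ≤ aa S x y z)).card : ℝ)

lemma rk_pos {S : Finset M} {x y z : M} (hz : z ∈ S) : 0 < rk S x y z := by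
  unfold rk
  have : 0 < (S.filter (fun w => aa S x y w ≤ aa S x y z)).card :=
    card_pos.mpr ⟨z, mem_filter.mpr ⟨hz, le_rfl⟩⟩
  exact_mod_cast this

lemma count_sep {S : Finset M} (hS : 2 ≤ S.card) {x y : M} (hx : x ∈ S) (q : Fin N) :
    ((univ.filter (fun π : M ≃ Fin n => cen (π, q) S x ≠ cen (π, q) S y)).card : ℝ)
      ≤ (Fintype.card (M ≃ Fin n) : ℝ) *
        ∑ z ∈ S, if aa S x y z ≤ al q ∧ al q < bb S x y z then (rk S x y z)⁻¹ else 0 := by
  set Z := S.filter (fun z => aa S x y z ≤ al q) with hZ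
  set B := S.filter (fun z => aa S x y z ≤ al q ∧ al q < bb S x y z) with hB
  have hBZ : B ⊆ Z := by
    intro z hz
    rw [hB, mem_filter] at hz
    rw [hZ, mem_filter]
    exact ⟨hz.1, hz.2.1⟩
  have hZne : Z.Nonempty := by
    refine ⟨x, ?_⟩
    rw [hZ, mem_filter]
    refine ⟨hx, ?_⟩
    unfold aa
    rw [dist_self, min_eq_left dist_nonneg, zero_div]
    have := al_ge q
    linarith
  have h1 : (univ.filter (fun π : M ≃ Fin n => cen (π, q) S x ≠ cen (π, q) S y)).card
      ≤ (univ.filter (fun π : M ≃ Fin n => first π Z x ∈ B)).card := by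
    apply card_le_card
    intro π hπ
    rw [mem_filter] at hπ ⊢
    exact ⟨hπ.1, sep_imp hS hx π q hπ.2⟩
  have h2 := card_first_mem (n := n) hZne hBZ x
  have hZpos : (0:ℝ) < Z.card := by exact_mod_cast hZne.card_pos
  have h3 : ((univ.filter (fun π : M ≃ Fin n => first π Z x ∈ B)).card : ℝ)
      = (Fintype.card (M ≃ Fin n) : ℝ) * (B.card * (Z.card : ℝ)⁻¹) := by
    have h4 : ((univ.filter (fun π : M ≃ Fin n => first π Z x ∈ B)).card : ℝ) * Z.card
        = B.card * (Fintype.card (M ≃ Fin n) : ℝ) := by exact_mod_cast h2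
    field_simp
    linarith
  have h5 : (B.card : ℝ) * (Z.card : ℝ)⁻¹
      ≤ ∑ z ∈ S, if aa S x y z ≤ al q ∧ al q < bb S x y z then (rk S x y z)⁻¹ else 0 := by
    rw [← sum_filter, ← hB, ← nsmul_eq_mul, ← sum_const]
    refine sum_le_sum fun z hz => ?_
    rw [hB, mem_filter] at hz
    apply inv_anti₀ (rk_pos hz.1)
    unfold rk
    have : (S.filter (fun w => aa S x y w ≤ aa S x y z)).card ≤ Z.card := by
      apply card_le_card
      intro w hw
      rw [mem_filter] at hw
      rw [hZ, mem_filter]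
      exact ⟨hw.1, hw.2.trans hz.2.1⟩
    exact_mod_cast this
  calc ((univ.filter (fun π : M ≃ Fin n => cen (π, q) S x ≠ cen (π, q) S y)).card : ℝ)
      ≤ ((univ.filter (fun π : M ≃ Fin n => first π Z x ∈ B)).card : ℝ) := by exact_mod_cast h1
    _ = _ := h3
    _ ≤ _ := mul_le_mul_of_nonneg_left h5 (Nat.cast_nonneg _)

lemma rad_cen_le {S : Finset M} {x : M} (hx : x ∈ S) (s : (M ≃ Fin n) × Fin N) :
    rad S (cen s S x) ≤ 4 / 3 * rad S x := by
  have h1 := cen_spec s hx
  have h2 := rad_le_add ⟨x, hx⟩ (cen s S x) x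
  rw [dist_comm] at h2
  have h3 := al_lt s.2
  have h4 := rad_nonneg S (cen s S x)
  nlinarith

lemma count_z {S : Finset M} (hS : 2 ≤ S.card) {x y : M}
    (hN : ∀ u v : M, dist u v ≤ N * dist x y) (z : M) :
    min (rad S x) (rad S y) *
      ((univ.filter (fun q : Fin N => aa S x y z ≤ al q ∧ al q < bb S x y z)).card : ℝ)
      ≤ 11 * N * dist x y := by
  have hne : S.Nonempty := card_pos.mp (by omega)
  have hr := rad_pos hS z
  rcases (univ.filter (fun q : Fin N => aa S x y z ≤ al q ∧ al q < bb S x y z)).eq_empty_or_nonempty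
    with h0 | ⟨q, hq⟩
  · rw [h0, card_empty]
    have := dist_nonneg (x := x) (y := y)
    simp
    positivity
  · rw [mem_filter] at hq
    have hm0 : 0 ≤ min (rad S x) (rad S y) := le_min (rad_nonneg _ _) (rad_nonneg _ _)
    have h1 : aa S x y z < 1 / 4 := lt_of_le_of_lt hq.2.1 (al_lt q)
    unfold aa at h1
    rw [div_lt_iff₀ hr] at h1
    have hm : min (rad S x) (rad S y) ≤ 5 / 4 * rad S z := by
      rcases min_lt_iff.mp h1 with h | h
      · have := rad_le_add hne x z
        have := min_le_left (rad S x) (rad S y)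
        linarith
      · have := rad_le_add hne y z
        have := min_le_right (rad S x) (rad S y)
        linarith
    have hab : aa S x y z ≤ bb S x y z := by
      unfold aa bb
      exact div_le_div_of_nonneg_right min_le_max hr.le
    have hdiff : bb S x y z - aa S x y z ≤ dist x y / rad S z := by
      unfold aa bb
      rw [← sub_div]
      apply div_le_div_of_nonneg_right _ hr.le
      rw [max_sub_min_eq_abs]
      have h := abs_dist_sub_le y x z
      rw [dist_comm y x] at h
      exact h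
    have hc := count_al (N := N) hab
    have hmN : min (rad S x) (rad S y) ≤ N * dist x y := by
      obtain ⟨_, w, _, hw⟩ := rad_spec hne x
      exact (min_le_left _ _).trans (hw ▸ hN x w)
    have hd := dist_nonneg (x := x) (y := y)
    calc min (rad S x) (rad S y) *
        ((univ.filter (fun q : Fin N => aa S x y z ≤ al q ∧ al q < bb S x y z)).card : ℝ)
        ≤ min (rad S x) (rad S y) * (8 * N * (bb S x y z - aa S x y z) + 1) :=
          mul_le_mul_of_nonneg_left hc hm0
      _ ≤ min (rad S x) (rad S y) * (8 * N * (dist x y / rad S z) + 1) := by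
          apply mul_le_mul_of_nonneg_left _ hm0
          have : 8 * (N:ℝ) * (bb S x y z - aa S x y z) ≤ 8 * (N:ℝ) * (dist x y / rad S z) :=
            mul_le_mul_of_nonneg_left hdiff (by positivity)
          linarith
      _ = 8 * N * dist x y * (min (rad S x) (rad S y) / rad S z) + min (rad S x) (rad S y) := by
          ring
      _ ≤ 8 * N * dist x y * (5 / 4) + N * dist x y := by
          have h2 : min (rad S x) (rad S y) / rad S z ≤ 5 / 4 := by
            rw [div_le_iff₀ hr]; exact hm
          have h3 : 8 * (N:ℝ) * dist x y * (min (rad S x) (rad S y) / rad S z)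
              ≤ 8 * N * dist x y * (5 / 4) := mul_le_mul_of_nonneg_left h2 (by positivity)
          linarith
      _ = 11 * N * dist x y := by ring

lemma sum_count {S : Finset M} (hS : 2 ≤ S.card) {x y : M} (hx : x ∈ S)
    (hN : ∀ u v : M, dist u v ≤ N * dist x y) :
    min (rad S x) (rad S y) *
      ∑ q : Fin N, ((univ.filter (fun π : M ≃ Fin n => cen (π, q) S x ≠ cen (π, q) S y)).card : ℝ)
      ≤ (Fintype.card (M ≃ Fin n) : ℝ) * (11 * N * dist x y * (harmonic S.card : ℝ)) := by
  have hm0 : 0 ≤ min (rad S x) (rad S y) := le_min (rad_nonneg _ _) (rad_nonneg _ _)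
  have h1 : ∑ q : Fin N,
      ((univ.filter (fun π : M ≃ Fin n => cen (π, q) S x ≠ cen (π, q) S y)).card : ℝ)
      ≤ (Fintype.card (M ≃ Fin n) : ℝ) * ∑ z ∈ S, (rk S x y z)⁻¹ *
        ((univ.filter (fun q : Fin N => aa S x y z ≤ al q ∧ al q < bb S x y z)).card : ℝ) := by
    calc _ ≤ ∑ q : Fin N, (Fintype.card (M ≃ Fin n) : ℝ) *
          ∑ z ∈ S, (if aa S x y z ≤ al q ∧ al q < bb S x y z then (rk S x y z)⁻¹ else 0) :=
          sum_le_sum fun q _ => count_sep hS hx q
      _ = _ := by
          rw [← mul_sum, sum_comm]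
          congr 1
          refine sum_congr rfl fun z _ => ?_
          rw [← sum_filter, sum_const, nsmul_eq_mul, mul_comm]
  calc _ ≤ min (rad S x) (rad S y) * ((Fintype.card (M ≃ Fin n) : ℝ) *
        ∑ z ∈ S, (rk S x y z)⁻¹ *
        ((univ.filter (fun q : Fin N => aa S x y z ≤ al q ∧ al q < bb S x y z)).card : ℝ)) :=
        mul_le_mul_of_nonneg_left h1 hm0
    _ = (Fintype.card (M ≃ Fin n) : ℝ) * ∑ z ∈ S, (rk S x y z)⁻¹ *
        (min (rad S x) (rad S y) *
        ((univ.filter (fun q : Fin N => aa S x y z ≤ al q ∧ al q < bb S x y z)).card : ℝ)) := by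
        rw [mul_left_comm, mul_sum]
        congr 1
        refine sum_congr rfl fun z _ => ?_
        ring
    _ ≤ (Fintype.card (M ≃ Fin n) : ℝ) * ∑ z ∈ S, (rk S x y z)⁻¹ * (11 * N * dist x y) := by
        apply mul_le_mul_of_nonneg_left _ (Nat.cast_nonneg _)
        refine sum_le_sum fun z hz => ?_
        exact mul_le_mul_of_nonneg_left (count_z hS hN z) (inv_nonneg.mpr (rk_pos hz).le)
    _ ≤ _ := by
        apply mul_le_mul_of_nonneg_left _ (Nat.cast_nonneg _)
        rw [← sum_mul, mul_comm]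
        have hd := dist_nonneg (x := x) (y := y)
        exact mul_le_mul_of_nonneg_left (sum_inv_rank (aa S x y) S) (by positivity)

/-- the main estimate: expected radius of separating clusters -/
lemma sum_sep {S : Finset M} (hS : 2 ≤ S.card) {x y : M} (hx : x ∈ S) (hy : y ∈ S)
    (hN : ∀ u v : M, dist u v ≤ N * dist x y) :
    ∑ s : (M ≃ Fin n) × Fin N,
      (if cen s S x ≠ cen s S y then rad S (cen s S x) + rad S (cen s S y) else 0)
      ≤ (Fintype.card ((M ≃ Fin n) × Fin N) : ℝ) * (44 * (harmonic S.card : ℝ) * dist x y) := by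
  have hne : S.Nonempty := ⟨x, hx⟩
  have hd := dist_nonneg (x := x) (y := y)
  have hH : (1:ℝ) ≤ (harmonic S.card : ℝ) := by
    have h := sum_inv_rank (fun _ : M => (0:ℝ)) S
    have e : ∑ z ∈ S, (((S.filter (fun w => (fun _ : M => (0:ℝ)) w ≤ (fun _ : M => (0:ℝ)) z)).card
        : ℝ))⁻¹ = 1 := by
      simp only [le_refl, filter_true]
      rw [sum_const, nsmul_eq_mul]
      have : (S.card : ℝ) ≠ 0 := by
        have := hne.card_pos
        positivity
      field_simp
    rw [e] at h
    exact h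
  set m := min (rad S x) (rad S y) with hm
  have hm0 : 0 ≤ m := le_min (rad_nonneg _ _) (rad_nonneg _ _)
  have hsum : rad S x + rad S y ≤ 2 * m + dist x y := by
    have h1 := rad_le_add hne x y
    have h2 := rad_le_add hne y x
    rw [dist_comm y x] at h2
    rcases le_total (rad S x) (rad S y) with h | h
    · rw [hm, min_eq_left h]; linarith
    · rw [hm, min_eq_right h]; linarith
  have hpt : ∀ s : (M ≃ Fin n) × Fin N,
      rad S (cen s S x) + rad S (cen s S y) ≤ 4 / 3 * (2 * m + dist x y) := by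
    intro s
    have h1 := rad_cen_le hx s
    have h2 := rad_cen_le hy s
    linarith
  set P : ℝ := ∑ q : Fin N,
    ((univ.filter (fun π : M ≃ Fin n => cen (π, q) S x ≠ cen (π, q) S y)).card : ℝ) with hP
  have hPle : P ≤ (Fintype.card (M ≃ Fin n) : ℝ) * N := by
    rw [hP]
    calc _ ≤ ∑ _q : Fin N, (Fintype.card (M ≃ Fin n) : ℝ) := by
          refine sum_le_sum fun q _ => ?_
          exact_mod_cast card_le_univ _
      _ = _ := by rw [sum_const, card_univ, Fintype.card_fin, nsmul_eq_mul]; ring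
  have hP0 : 0 ≤ P := sum_nonneg fun _ _ => Nat.cast_nonneg _
  have hmP := sum_count (n := n) hS hx hN
  rw [← hP, ← hm] at hmP
  have htot : ∑ s : (M ≃ Fin n) × Fin N,
      (if cen s S x ≠ cen s S y then rad S (cen s S x) + rad S (cen s S y) else 0)
      ≤ 4 / 3 * (2 * m + dist x y) * P := by
    calc _ ≤ ∑ s : (M ≃ Fin n) × Fin N,
        (if cen s S x ≠ cen s S y then 4 / 3 * (2 * m + dist x y) else 0) := by
          refine sum_le_sum fun s _ => ?_
          split_ifs
          · exact hpt s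
          · exact le_rfl
      _ = _ := by
          rw [Fintype.sum_prod_type_right, hP, mul_sum]
          refine sum_congr rfl fun q _ => ?_
          rw [← sum_filter, sum_const, nsmul_eq_mul, mul_comm]
  have hcard : (Fintype.card ((M ≃ Fin n) × Fin N) : ℝ) = (Fintype.card (M ≃ Fin n) : ℝ) * N := by
    rw [Fintype.card_prod, Fintype.card_fin]; push_cast; ring
  rw [hcard]
  refine htot.trans ?_
  set G : ℝ := (Fintype.card (M ≃ Fin n) : ℝ) with hG
  have hG0 : 0 ≤ G := Nat.cast_nonneg _
  have hN0 : (0:ℝ) ≤ N := Nat.cast_nonneg _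
  rcases le_total (dist x y) m with h | h
  · calc 4 / 3 * (2 * m + dist x y) * P ≤ 4 / 3 * (3 * m) * P := by
          apply mul_le_mul_of_nonneg_right _ hP0
          linarith
      _ = 4 * (m * P) := by ring
      _ ≤ 4 * (G * (11 * N * dist x y * (harmonic S.card : ℝ))) := by linarith
      _ = _ := by ring
  · calc 4 / 3 * (2 * m + dist x y) * P ≤ 4 / 3 * (3 * dist x y) * P := by
          apply mul_le_mul_of_nonneg_right _ hP0
          linarith
      _ = 4 * dist x y * P := by ring
      _ ≤ 4 * dist x y * (G * N) := mul_le_mul_of_nonneg_left hPle (by positivity)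
      _ = G * N * (4 * 1 * dist x y) := by ring
      _ ≤ G * N * (44 * (harmonic S.card : ℝ) * dist x y) := by
          apply mul_le_mul_of_nonneg_left _ (by positivity)
          apply mul_le_mul_of_nonneg_right _ hd
          linarith

end Pool.Agent.LibH23.EMB
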