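import Mathlib

/-!
Median radii in finite metric spaces and the hierarchical random partition.
-/

namespace Pool.Agent.LibH23.EMB

open Finset

set_option linter.unusedSectionVars false

section Rad

variable {M : Type*} [DecidableEq M] [MetricSpace M]

/-- the candidates for the median radius of `x` in `S` -/
noncomputable def cand (S : Finset M) (x : M) : Finset ℝ :=
  (S.image (dist x)).filter (fun r => S.card < 2 * (S.filter (fun y => dist x y ≤ r)).card)

/-- the median radius of `x` in `S` -/
noncomputable def rad (S : Finset M) (x : M) : ℝ :=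
  if h : (cand S x).Nonempty then (cand S x).min' h else 0

lemma cand_of_lt {S : Finset M} {x : M} {t : ℝ}
    (h : S.card < 2 * (S.filter (fun y => dist x y ≤ t)).card) : ∃ r ∈ cand S x, r ≤ t := by
  have hne : (S.filter (fun y => dist x y ≤ t)).Nonempty := by
    rw [← Finset.card_pos]; omega
  obtain ⟨y0, hy0, hmax⟩ := Finset.exists_max_image _ (dist x) hne
  rw [mem_filter] at hy0
  refine ⟨dist x y0, ?_, hy0.2⟩
  unfold cand
  rw [mem_filter]
  refine ⟨mem_image_of_mem _ hy0.1, lt_of_lt_of_le h ?_⟩
  refine Nat.mul_le_mul_left 2 (card_le_card ?_)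
  intro y hy
  have := hmax y hy
  rw [mem_filter] at hy ⊢
  exact ⟨hy.1, this⟩

lemma rad_le {S : Finset M} {x : M} {t : ℝ}
    (h : S.card < 2 * (S.filter (fun y => dist x y ≤ t)).card) : rad S x ≤ t := by
  obtain ⟨r, hr, hrt⟩ := cand_of_lt h
  unfold rad
  rw [dif_pos ⟨r, hr⟩]
  exact (min'_le _ _ hr).trans hrt

lemma rad_spec {S : Finset M} (hS : S.Nonempty) (x : M) :
    S.card < 2 * (S.filter (fun y => dist x y ≤ rad S x)).card ∧ ∃ y ∈ S, rad S x = dist x y := by
  have hne : (cand S x).Nonempty := by
    obtain ⟨y0, hy0, hmax⟩ := Finset.exists_max_image S (dist x) hS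
    have h : S.card < 2 * (S.filter (fun y => dist x y ≤ dist x y0)).card := by
      rw [filter_true_of_mem hmax]
      have := hS.card_pos
      omega
    obtain ⟨r, hr, _⟩ := cand_of_lt h
    exact ⟨r, hr⟩
  have h1 : rad S x = (cand S x).min' hne := by unfold rad; rw [dif_pos hne]
  have h2 := min'_mem (cand S x) hne
  rw [← h1] at h2
  unfold cand at h2
  rw [mem_filter, mem_image] at h2
  obtain ⟨⟨y, hy, hyr⟩, h3⟩ := h2
  exact ⟨h3, y, hy, hyr.symm⟩

lemma rad_nonneg (S : Finset M) (x : M) : 0 ≤ rad S x := by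
  by_cases hS : S.Nonempty
  · obtain ⟨_, y, _, h⟩ := rad_spec hS x
    rw [h]; exact dist_nonneg
  · rw [not_nonempty_iff_eq_empty] at hS
    subst hS
    simp [rad, cand]

lemma half_of_lt_rad {S : Finset M} {x : M} {t : ℝ} (h : t < rad S x) :
    2 * (S.filter (fun y => dist x y ≤ t)).card ≤ S.card := by
  by_contra hc
  exact absurd (rad_le (not_le.mp hc)) (not_le.mpr h)

lemma rad_le_of_forall {S : Finset M} (hS : S.Nonempty) {x : M} {t : ℝ}
    (h : ∀ y ∈ S, dist x y ≤ t) : rad S x ≤ t := by
  apply rad_le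
  rw [filter_true_of_mem h]
  have := hS.card_pos
  omega

lemma rad_le_add {S : Finset M} (hS : S.Nonempty) (x y : M) :
    rad S x ≤ rad S y + dist x y := by
  apply rad_le
  refine lt_of_lt_of_le (rad_spec hS y).1 (Nat.mul_le_mul_left 2 (card_le_card ?_))
  intro z hz
  rw [mem_filter] at hz ⊢
  refine ⟨hz.1, ?_⟩
  have := dist_triangle x y z
  linarith [hz.2]

lemma dist_le_rad_add {S : Finset M} (hS : S.Nonempty) (x y : M) :
    dist x y ≤ rad S x + rad S y := by
  have h1 := (rad_spec hS x).1
  have h2 := (rad_spec hS y).1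
  set A := S.filter (fun z => dist x z ≤ rad S x)
  set B := S.filter (fun z => dist y z ≤ rad S y)
  have h3 := card_union_add_card_inter A B
  have h4 : (A ∪ B).card ≤ S.card :=
    card_le_card (union_subset (filter_subset _ _) (filter_subset _ _))
  have h5 : 0 < (A ∩ B).card := by omega
  obtain ⟨z, hz⟩ := card_pos.mp h5
  rw [mem_inter, mem_filter, mem_filter] at hz
  have := dist_triangle_right x y z
  linarith [hz.1.2, hz.2.2]

lemma rad_pos {S : Finset M} (hS : 2 ≤ S.card) (x : M) : 0 < rad S x := by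
  refine lt_of_le_of_ne (rad_nonneg S x) (fun h => ?_)
  have hne : S.Nonempty := card_pos.mp (by omega)
  have h1 := (rad_spec hne x).1
  rw [← h] at h1
  have h2 : (S.filter (fun y => dist x y ≤ 0)).card ≤ 1 := by
    rw [card_le_one]
    intro a ha b hb
    rw [mem_filter] at ha hb
    have ha' := dist_le_zero.mp ha.2
    have hb' := dist_le_zero.mp hb.2
    rw [← ha', ← hb']
  omega

end Rad

section First

variable {M : Type*} [DecidableEq M] {n : ℕ}

/-- the first element of `Z` in the ranking `π` -/
noncomputable def first (π : M ≃ Fin n) (Z : Finset M) (x : M) : M :=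
  if h : Z.Nonempty then π.symm ((Z.image π).min' (h.image π)) else x

lemma first_mem (π : M ≃ Fin n) {Z : Finset M} (h : Z.Nonempty) (x : M) : first π Z x ∈ Z := by
  unfold first
  rw [dif_pos h]
  have h1 := min'_mem (Z.image π) (h.image π)
  rw [mem_image] at h1
  obtain ⟨z, hz, hzm⟩ := h1
  rw [← hzm, Equiv.symm_apply_apply]
  exact hz

lemma first_le (π : M ≃ Fin n) {Z : Finset M} {z : M} (hz : z ∈ Z) (x : M) :
    π (first π Z x) ≤ π z := by
  unfold first
  rw [dif_pos ⟨z, hz⟩, Equiv.apply_symm_apply]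
  exact min'_le _ _ (mem_image_of_mem π hz)

lemma first_eq (π : M ≃ Fin n) {Z : Finset M} {z : M} (hz : z ∈ Z) (h : ∀ w ∈ Z, π z ≤ π w)
    (x : M) : first π Z x = z := by
  apply π.injective
  exact le_antisymm (first_le π hz x) (h _ (first_mem π ⟨z, hz⟩ x))

/-- swapping two elements of `Z` -/
lemma first_swap (π : M ≃ Fin n) {Z : Finset M} {z z' : M} (hz : z ∈ Z) (hz' : z' ∈ Z) (x : M)
    (h : first π Z x = z) : first ((Equiv.swap z z').trans π) Z x = z' := by
  apply first_eq _ hz'
  intro w hw
  rw [Equiv.trans_apply, Equiv.trans_apply, Equiv.swap_apply_right, ← h]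
  apply first_le
  rw [Equiv.swap_apply_def]
  split_ifs
  · exact hz'
  · exact h ▸ first_mem π ⟨z, hz⟩ x
  · exact hw

variable [Fintype M]

lemma card_first_eq {Z : Finset M} {z z' : M} (hz : z ∈ Z) (hz' : z' ∈ Z) (x : M) :
    (univ.filter (fun π : M ≃ Fin n => first π Z x = z)).card
      ≤ (univ.filter (fun π : M ≃ Fin n => first π Z x = z')).card := by
  refine card_le_card_of_injOn (fun π => (Equiv.swap z z').trans π) ?_ ?_
  · intro π hπ
    simp only [coe_filter, mem_univ, true_and, Set.mem_ofPred_eq] at hπ ⊢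
    exact first_swap π hz hz' x hπ
  · intro π _ π' _ he
    have he' : (Equiv.swap z z').trans π = (Equiv.swap z z').trans π' := he
    ext w
    have := congrArg (fun e : M ≃ Fin n => e (Equiv.swap z z' w)) he'
    simp only [Equiv.trans_apply, Equiv.swap_apply_self] at this
    exact congrArg _ this

lemma card_first_mem {Z B : Finset M} (hZ : Z.Nonempty) (hB : B ⊆ Z) (x : M) :
    (univ.filter (fun π : M ≃ Fin n => first π Z x ∈ B)).card * Z.card
      = B.card * Fintype.card (M ≃ Fin n) := by
  obtain ⟨z0, hz0⟩ := hZ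
  set c := (univ.filter (fun π : M ≃ Fin n => first π Z x = z0)).card with hc
  have hall : ∀ z ∈ Z, (univ.filter (fun π : M ≃ Fin n => first π Z x = z)).card = c := by
    intro z hz
    exact le_antisymm (card_first_eq hz hz0 x) (card_first_eq hz0 hz x)
  have hgen : ∀ A ⊆ Z, (univ.filter (fun π : M ≃ Fin n => first π Z x ∈ A)).card
      = A.card * c := by
    intro A hA
    rw [card_eq_sum_card_fiberwise (f := fun π : M ≃ Fin n => first π Z x) (t := A)
      (fun π hπ => by
        simp only [coe_filter, mem_univ, true_and, Set.mem_ofPred_eq] at hπ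
        exact hπ)]
    rw [sum_congr rfl (g := fun _ => c), sum_const, smul_eq_mul]
    intro a ha
    rw [← hall a (hA ha)]
    congr 1
    ext π
    simp only [mem_filter, mem_univ, true_and]
    constructor
    · rintro ⟨_, h⟩; exact h
    · intro h; exact ⟨h ▸ ha, h⟩
  have h1 := hgen Z (subset_refl _)
  have h2 : (univ.filter (fun π : M ≃ Fin n => first π Z x ∈ Z)).card
      = Fintype.card (M ≃ Fin n) := by
    rw [filter_true_of_mem (fun π _ => first_mem π ⟨z0, hz0⟩ x), card_univ]
  rw [← h2, h1, hgen B hB]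
  ring

end First

end Pool.Agent.LibH23.EMB
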